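import Pool.Agent.Helper8.KN.Det

/-! Common lemmas for CLI, CLL. -/

open MeasureTheory Set Filter Topology
open scoped ENNReal

noncomputable section

namespace KN
namespace Det

variable {k : ℕ} {r D dm ε Λ' : ℝ} {A P : Multiset ℂ}

/-- there are `k+1` points of `P` closer to `p` than the nearest point of `A` -/
theorem core (hin : ∀ a ∈ A, ∀ p ∈ P, k + 1 ≤ cnt (Metric.ball p (dist a p)) (A + P) ∧ r ≤ dist a p)
    {p v : ℂ} (hp : p ∈ P) (hv : v ∈ A) (hpv : dist p v < Λ') {t : ℝ}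
    (ht : ∃ a ∈ A, dist a p ≤ t) :
    k + 1 ≤ cnt (Metric.ball p t) (res (Metric.ball v (2 * Λ')) P) := by
  have hA : A ≠ 0 := by
    rintro rfl; simp at hv
  obtain ⟨a, ha, hmin⟩ := exists_nearest A hA p
  obtain ⟨b, hb, hbt⟩ := ht
  have hat : dist a p ≤ t := (hmin b hb).trans hbt
  have h1 := (hin a ha p hp).1
  rw [cnt_add_le (fun a' ha' h => by
    rw [Metric.mem_ball] at h
    exact absurd (hmin a' ha') (not_le.2 h))] at h1
  refine h1.trans ?_
  rw [cnt_res]
  apply cnt_mono'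
  intro y _ hy
  rw [Metric.mem_ball] at hy
  have hav : dist a p ≤ dist p v := by
    rw [dist_comm p v]; exact hmin v hv
  refine ⟨?_, ?_⟩
  · rw [Metric.mem_ball]; linarith
  · rw [Metric.mem_ball]
    have := dist_triangle y p v
    linarith

theorem res_rest {A' : Multiset ℂ} {W W' : Set ℂ} (h1 : ∀ a ∈ A', a ∉ W)
    (h2 : ∀ p ∈ P, (p ∈ W ↔ p ∈ W')) : res W (A' + P) = res W' P := by
  rw [res_add, res_eq_zero h1, zero_add]
  exact res_congr h2

/-- case T -/
theorem evT {n : ℝ} {W : Set ℂ} {ω : Multiset ℂ} {v : ℂ} (hr : 0 < r) (hω : ω = A + P)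
    (hSq : ∀ z ∈ ω, z ∈ Sq n) (hcard : 2 ≤ Multiset.card A)
    (hin : ∀ a ∈ A, ∀ p ∈ P, k + 1 ≤ cnt (Metric.ball p (dist a p)) (A + P) ∧ r ≤ dist a p)
    (hv : v ∈ A) (hvW : v ∈ W) (hsmall : ∀ a ∈ A, dist a v < r / 200) :
    EvT k W n r (r / 200) Λ' ω := by
  classical
  obtain ⟨A', hA'⟩ := Multiset.exists_cons_of_mem hv
  have hA'0 : A' ≠ 0 := by
    rintro rfl
    rw [hA'] at hcard
    simp at hcard
  obtain ⟨u, hu, hfar⟩ := exists_farthest A' hA'0 v
  obtain ⟨A'', hA''⟩ := Multiset.exists_cons_of_mem hu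
  have huA : u ∈ A := by rw [hA']; exact Multiset.mem_cons_of_mem hu
  have hfarA : ∀ a ∈ A, dist a v ≤ dist u v := by
    intro a ha
    rw [hA', Multiset.mem_cons] at ha
    rcases ha with rfl | ha
    · simp
    · exact hfar a ha
  have hres : res (Metric.ball v (2 * Λ') \ Metric.closedBall v (dist u v)) (A'' + P) =
      res (Metric.ball v (2 * Λ')) P := by
    apply res_rest
    · intro a ha h
      apply h.2
      rw [Metric.mem_closedBall]
      apply hfar
      rw [hA'']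
      exact Multiset.mem_cons_of_mem ha
    · intro p hp
      constructor
      · intro h; exact h.1
      · intro h
        refine ⟨h, ?_⟩
        rw [Metric.mem_closedBall]
        have h1 := (hin v hv p hp).2
        have h2 := hsmall u huA
        rw [dist_comm v p] at h1
        intro h3
        linarith
  refine ⟨v, u, A'' + P, ?_, hvW, hSq u ?_, hsmall u huA, ?_⟩
  · rw [hω, hA', hA'', Multiset.cons_add, Multiset.cons_add]
  · rw [hω]; exact Multiset.mem_add.2 (Or.inl huA)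
  · rw [hres]
    have hne : ({v, u} : Set ℂ).Nonempty := ⟨v, by simp⟩
    constructor
    · intro p hp
      rw [mem_res] at hp
      rw [Metric.le_infDist hne]
      intro y hy
      rw [dist_comm]
      rcases hy with rfl | hy
      · exact (hin _ hv p hp.1).2
      · rw [mem_singleton_iff] at hy
        subst hy
        exact (hin _ huA p hp.1).2
    · intro p hp hpv
      rw [mem_res] at hp
      refine core hin hp.1 hv hpv ?_
      have hA : A ≠ 0 := by
        rintro rfl; simp at hv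
      obtain ⟨a, ha, hmin⟩ := exists_nearest A hA p
      refine ⟨a, ha, le_min ?_ ?_⟩
      · rw [dist_comm p v]; exact hmin v hv
      · rw [add_zero, Metric.le_infDist hne]
        intro y hy
        rw [dist_comm p y]
        rcases hy with rfl | hy
        · exact hmin _ hv
        · rw [mem_singleton_iff] at hy
          subst hy
          exact hmin _ huA

theorem cellU_nonempty (hε : 0 < ε) {v : ℂ} (hv : v ∈ A) : (cellU ε (cells ε A)).Nonempty :=
  ⟨v, mem_cellU_of_mem hε hv⟩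

/-- distance of points of `P` to the cells -/
theorem le_infDist_cellU {δ : ℝ} (hε : 0 < ε) (hδ : ∀ a ∈ A, ∀ p ∈ P, δ ≤ dist a p) {v : ℂ}
    (hv : v ∈ A) {p : ℂ} (hp : p ∈ P) :
    δ - Real.sqrt 2 * ε ≤ Metric.infDist p (cellU ε (cells ε A)) := by
  rw [Metric.le_infDist (cellU_nonempty hε hv)]
  intro y hy
  obtain ⟨a, ha, hya⟩ := exists_near hε hy
  have h1 := hδ a ha p hp
  have h2 := dist_triangle a y p
  rw [dist_comm a y] at h2
  rw [dist_comm p y]
  linarith

/-- case M -/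
theorem isoM {δ : ℝ} {j : ℕ} {v : ℂ} {A' : Multiset ℂ} (hε : 0 < ε)
    (hin : ∀ a ∈ A, ∀ p ∈ P, k + 1 ≤ cnt (Metric.ball p (dist a p)) (A + P) ∧ r ≤ dist a p)
    (hδ : ∀ a ∈ A, ∀ p ∈ P, δ ≤ dist a p) (hA' : A = v ::ₘ A')
    (hj : (j : ℝ) * ε + 2 * ε ≤ δ) :
    Iso k v (cellU ε (cells ε A)) (Real.sqrt 2 * ε) (j * ε) Λ'
      (res (Metric.ball v (2 * Λ') \ cellU ε (cells ε A)) (A' + P)) := by
  have hv : v ∈ A := by rw [hA']; exact Multiset.mem_cons_self _ _
  have hs2 := sqrt2_lt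
  have hs0 := sqrt2_pos
  have hjn : (0 : ℝ) ≤ j * ε := by positivity
  have hprod : Real.sqrt 2 * ε ≤ 1.4143 * ε := by gcongr
  have hPU : ∀ p ∈ P, p ∉ cellU ε (cells ε A) := by
    intro p hp hpU
    have h1 := le_infDist_cellU hε hδ hv hp
    rw [Metric.infDist_zero_of_mem hpU] at h1
    linarith
  have hres : res (Metric.ball v (2 * Λ') \ cellU ε (cells ε A)) (A' + P) =
      res (Metric.ball v (2 * Λ')) P := by
    apply res_rest
    · intro a ha h
      exact h.2 (mem_cellU_of_mem hε (by rw [hA']; exact Multiset.mem_cons_of_mem ha))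
    · intro p hp
      exact ⟨fun h => h.1, fun h => ⟨h, hPU p hp⟩⟩
  rw [hres]
  constructor
  · intro p hp
    rw [mem_res] at hp
    have h1 := le_infDist_cellU hε hδ hv hp.1
    linarith
  · intro p hp hpv
    rw [mem_res] at hp
    refine core hin hp.1 hv hpv ?_
    have hA : A ≠ 0 := by
      rintro rfl; simp at hv
    obtain ⟨a, ha, hmin⟩ := exists_nearest A hA p
    refine ⟨a, ha, le_min ?_ ?_⟩
    · rw [dist_comm p v]; exact hmin v hv
    · have h1 : dist a p - Real.sqrt 2 * ε ≤ Metric.infDist p (cellU ε (cells ε A)) := by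
        rw [Metric.le_infDist (cellU_nonempty hε hv)]
        intro y hy
        obtain ⟨b, hb, hyb⟩ := exists_near hε hy
        have h1 := hmin b hb
        have h2 := dist_triangle b y p
        rw [dist_comm b y] at h2
        rw [dist_comm p y]
        linarith
      linarith

/-- case C: emptiness of the collar -/
theorem collar_empty {δ : ℝ} {j : ℕ} {v : ℂ} {S : Set ℂ} (hε : 0 < ε) (hj0 : 10000 ≤ j)
    (hδ : ∀ a ∈ A, ∀ p ∈ P, δ ≤ dist a p) (hv : v ∈ A) (hj : (j : ℝ) * ε ≤ δ) :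
    ∀ z ∈ A + P, z ∉ collar (cellU ε (cells ε A)) (0.99 * j * ε) ∩ S := by
  have hs2 := sqrt2_lt
  have hprod : Real.sqrt 2 * ε ≤ 1.4143 * ε := by gcongr
  have hjr : (10000 : ℝ) ≤ j := by exact_mod_cast hj0
  intro z hz h
  obtain ⟨⟨hzR, hzd⟩, -⟩ := h
  rcases Multiset.mem_add.1 hz with hz | hz
  · exact hzR (mem_cellU_of_mem hε hz)
  · have h1 := le_infDist_cellU hε hδ hv hz
    have h2 : 10000 * ε ≤ j * ε := by gcongr
    linarith

/-- case C: many points -/
theorem manyC {δ : ℝ} {j : ℕ} {x₀ z₀ : ℂ} (hε : 0 < ε) (hj0 : 10000 ≤ j)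
    (hin : ∀ a ∈ A, ∀ p ∈ P, k + 1 ≤ cnt (Metric.ball p (dist a p)) (A + P) ∧ r ≤ dist a p)
    (hδ : ∀ a ∈ A, ∀ p ∈ P, δ ≤ dist a p) (hx : x₀ ∈ P) (hz : z₀ ∈ A) (hxz : dist z₀ x₀ = δ)
    (hj : (j : ℝ) * ε ≤ δ) (hj' : δ < ((j : ℝ) + 1) * ε) :
    k ≤ cnt ((Metric.ball (llc ε (idx ε x₀)) (((j : ℝ) + 3) * ε) \
        Metric.ball (llc ε (idx ε z₀)) (((j : ℝ) - 3) * ε)) \
          collar (cellU ε (cells ε A)) (0.99 * j * ε)) (A + P) := by
  have hs2 := sqrt2_lt
  have hprod : Real.sqrt 2 * ε ≤ 1.4143 * ε := by gcongr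
  have h1 := (hin z₀ hz x₀ hx).1
  rw [hxz] at h1
  refine (Nat.le_succ k).trans (h1.trans ?_)
  apply cnt_mono'
  intro y hy hyb
  rw [Metric.mem_ball] at hyb
  have hyP : y ∈ P := by
    rcases Multiset.mem_add.1 hy with h | h
    · have := hδ y h x₀ hx
      linarith
    · exact h
  refine ⟨⟨?_, ?_⟩, ?_⟩
  · rw [Metric.mem_ball]
    have h2 := dist_triangle y x₀ (llc ε (idx ε x₀))
    have h3 := dist_cell hε (mem_Cell_idx hε x₀) (llc_mem hε (idx ε x₀))
    nlinarith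
  · rw [Metric.mem_ball, not_lt]
    have h2 := dist_triangle z₀ (llc ε (idx ε z₀)) y
    have h3 := dist_cell hε (mem_Cell_idx hε z₀) (llc_mem hε (idx ε z₀))
    have h4 := hδ z₀ hz y hyP
    rw [dist_comm (llc ε (idx ε z₀)) y] at h2
    nlinarith
  · intro h
    have := collar_empty (S := univ) hε hj0 hδ hz hj y hy
    exact this ⟨h, mem_univ _⟩

theorem llc_dist {δ : ℝ} {j : ℕ} {x₀ z₀ : ℂ} (hε : 0 < ε) (hxz : dist z₀ x₀ = δ)
    (hj : (j : ℝ) * ε ≤ δ) (hj' : δ < ((j : ℝ) + 1) * ε) :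
    ((j : ℝ) - 3) * ε ≤ dist (llc ε (idx ε x₀)) (llc ε (idx ε z₀)) ∧
      dist (llc ε (idx ε x₀)) (llc ε (idx ε z₀)) ≤ ((j : ℝ) + 4) * ε := by
  have hs2 := sqrt2_lt
  have hprod : Real.sqrt 2 * ε ≤ 1.4143 * ε := by gcongr
  have hx := dist_cell hε (mem_Cell_idx hε x₀) (llc_mem hε (idx ε x₀))
  have hz := dist_cell hε (mem_Cell_idx hε z₀) (llc_mem hε (idx ε z₀))
  set X := llc ε (idx ε x₀)
  set Z := llc ε (idx ε z₀)
  constructor
  · have h1 := dist_triangle4 z₀ Z X x₀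
    rw [dist_comm Z X, dist_comm X x₀] at h1
    nlinarith
  · have h1 := dist_triangle4 X x₀ z₀ Z
    rw [dist_comm X x₀, dist_comm x₀ z₀] at h1
    nlinarith

/-- points of the collar are near `v` -/
theorem collar_near {v z : ℂ} {s : ℝ} (hε : 0 < ε) (hv : v ∈ A)
    (hD : ∀ a ∈ A, dist a v ≤ D) (hz : z ∈ collar (cellU ε (cells ε A)) s) :
    dist z v ≤ s + 1.4143 * ε + D := by
  have hs2 := sqrt2_lt
  have hprod : Real.sqrt 2 * ε ≤ 1.4143 * ε := by gcongr
  obtain ⟨-, hz⟩ := hz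
  rw [Metric.infDist_lt_iff (cellU_nonempty hε hv)] at hz
  obtain ⟨y, hy, hzy⟩ := hz
  obtain ⟨a, ha, hya⟩ := exists_near hε hy
  have h1 := dist_triangle4 z y a v
  have h2 := hD a ha
  linarith

/-- distances in the cells -/
theorem cellU_dist {d : ℝ} (hε : 0 < ε) (hd : ∀ a ∈ A, ∀ b ∈ A, dist a b ≤ d) :
    ∀ x ∈ cellU ε (cells ε A), ∀ y ∈ cellU ε (cells ε A), dist x y ≤ d + 2.8286 * ε := by
  have hs2 := sqrt2_lt
  have hprod : Real.sqrt 2 * ε ≤ 1.4143 * ε := by gcongr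
  intro x hx y hy
  obtain ⟨a, ha, hxa⟩ := exists_near hε hx
  obtain ⟨b, hb, hyb⟩ := exists_near hε hy
  have h1 := dist_triangle4 x a b y
  rw [dist_comm b y] at h1
  have h2 := hd a ha b hb
  linarith

end Det
end KN
end
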