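import Pool.Agent.Helper8.KN.CL

/-! Part CLI: deterministic classification of in-isolated sets, interior. -/

open MeasureTheory Set Filter Topology
open scoped ENNReal

noncomputable section

namespace KN

open Det in
theorem cli_thm : S_CLI := by
  intro k n r D dm ε Λ' N ω hn hr hrdm hε hεr hN hΛ hdm hSq hbad
  obtain ⟨A, P, hω, hcard, ⟨hin, hdiam, hex⟩, v, hv, hvI⟩ := hbad
  have hvI' : Metric.closedBall v (2 * Λ') ⊆ Sq n := hvI
  by_cases hT : ∀ a ∈ A, dist a v < r / 200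
  · left
    exact evT hr hω hSq hcard hin hv hvI hT
  right
  push Not at hT
  obtain ⟨a₁, ha₁, ha₁v⟩ := hT
  -- the minimal distance
  have hA0 : A ≠ 0 := by rintro rfl; simp at hv
  have hP0 : P ≠ 0 := by
    rintro rfl
    obtain ⟨a, -, p, hp, -⟩ := hex
    simp at hp
  obtain ⟨z₀, hz₀, x₀, hx₀, hmin⟩ := exists_min_dist A P hA0 hP0
  obtain ⟨δ, hδdef⟩ : ∃ δ, dist z₀ x₀ = δ := ⟨_, rfl⟩
  rw [hδdef] at hmin
  have hδr : r ≤ δ := by rw [← hδdef]; exact (hin z₀ hz₀ x₀ hx₀).2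
  have hδdm : δ ≤ dm := by
    obtain ⟨a, ha, p, hp, hap⟩ := hex
    exact (hmin a ha p hp).trans hap
  have hδ0 : 0 ≤ δ := by linarith
  have hD0 : 0 ≤ D := by
    have := hdiam v hv v hv
    simpa using this
  have hvSq : v ∈ Sq n := hSq v (by rw [hω]; exact Multiset.mem_add.2 (Or.inl hv))
  have hc₀ := idx_mem_gridI hε hvSq
  have hDv : ∀ a ∈ A, dist a v ≤ D := fun a ha => hdiam a ha v hv
  have hF : cells ε A ∈ (nb N (idx ε v)).powerset := by
    rw [Finset.mem_powerset]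
    intro c hc
    obtain ⟨a, ha, rfl⟩ := mem_cells.1 hc
    apply idx_mem_nb hε
    have := hDv a ha
    linarith
  have hs2 := sqrt2_lt
  have hprod : Real.sqrt 2 * ε ≤ 1.4143 * ε := by gcongr
  obtain ⟨hfl1, hfl2⟩ := floor_facts hε hδ0
  have hflN : ⌊δ / ε⌋₊ ≤ N := floor_le hε hδ0 (by linarith)
  have hfl20 : 20000 ≤ ⌊δ / ε⌋₊ := by
    apply floor_ge hε
    push_cast
    linarith
  by_cases hM : ∀ a ∈ A, ∀ b ∈ A, dist a b ≤ 1.98 * δ
  · left
    obtain ⟨j, hj⟩ : ∃ j, ⌊δ / ε⌋₊ = j + 2 := ⟨⌊δ / ε⌋₊ - 2, by omega⟩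
    rw [hj] at hfl1 hfl2 hflN hfl20
    push_cast at hfl1 hfl2
    refine ⟨idx ε v, hc₀, cells ε A, hF, j, Finset.mem_range.2 (Nat.lt_succ_of_le ((Nat.le_add_right j 2).trans hflN)), hfl20, ?_, ?_⟩
    · intro x hx y hy
      have h1 := cellU_dist hε hM x hx y hy
      have hjr : (19998 : ℝ) ≤ j := by
        have : 19998 ≤ j := by omega
        exact_mod_cast this
      have hjε : 19998 * ε ≤ j * ε := by gcongr
      clear hfl20 hflN
      linarith
    · obtain ⟨A', hA'⟩ := Multiset.exists_cons_of_mem hv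
      refine ⟨v, A' + P, ?_, ⟨hvI, mem_Cell_idx hε v⟩, mem_cellU_of_mem hε hv,
        ⟨a₁, mem_cellU_of_mem hε ha₁, by linarith⟩, ?_⟩
      · rw [hω, hA', Multiset.cons_add]
      · exact isoM hε hin hmin hA' (by linarith)
  · right
    push Not at hM
    obtain ⟨p, hp, q, hq, hpq⟩ := hM
    obtain ⟨j, hj⟩ : ∃ j, ⌊δ / ε⌋₊ = j := ⟨_, rfl⟩
    rw [hj] at hfl1 hfl2 hflN hfl20
    have hj10 : 10000 ≤ j := by omega
    obtain ⟨hl1, hl2⟩ := llc_dist hε hδdef hfl1 hfl2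
    refine ⟨idx ε v, hc₀, cells ε A, hF, idx ε x₀, ?_, idx ε z₀, ?_, j, Finset.mem_range.2 (Nat.lt_succ_of_le hflN), hj10,
      ⟨p, mem_cellU_of_mem hε hp, q, mem_cellU_of_mem hε hq, ?_⟩, hl1, hl2, ?_, ?_, ?_⟩
    · apply idx_mem_nb hε
      have h1 := dist_triangle x₀ z₀ v
      have h2 := hDv z₀ hz₀
      rw [dist_comm x₀ z₀, hδdef] at h1
      linarith
    · apply idx_mem_nb hε
      have h2 := hDv z₀ hz₀
      linarith
    · linarith
    · intro z hz
      apply hvI'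
      rw [Metric.mem_closedBall]
      have h1 := collar_near hε hv hDv hz
      have h2 : (0 : ℝ) ≤ j * ε := by positivity
      linarith
    · rw [cnt_eq_zero, hω]
      intro z hz hc
      exact collar_empty (S := univ) hε hj10 hmin hv hfl1 z hz ⟨hc, mem_univ _⟩
    · rw [hω]
      exact manyC hε hj10 hin hmin hx₀ hz₀ hδdef hfl1 hfl2

end KN
end
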