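import Pool.Agent.Helper8.KN.CL

/-! Part CLL: deterministic classification of in-isolated sets, left side. -/

open MeasureTheory Set Filter Topology
open scoped ENNReal

noncomputable section

namespace KN
namespace Det

theorem dist_refl_refl (x y : ℂ) : dist (refl x) (refl y) = dist x y := by
  rw [Complex.dist_eq_re_im, Complex.dist_eq_re_im]
  simp only [refl]
  congr 1
  ring

theorem refl_refl' (x : ℂ) : refl (refl x) = x := by
  simp [refl]

theorem refl_mem_image {R : Set ℂ} {x : ℂ} (h : x ∈ R) : refl x ∈ refl '' R := ⟨x, h, rfl⟩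

/-- near points, for the doubled set -/
theorem exists_near2 {ε : ℝ} (hε : 0 < ε) {A : Multiset ℂ} {z : ℂ}
    (hz : z ∈ cellU ε (cells ε A) ∪ refl '' cellU ε (cells ε A)) :
    ∃ a ∈ A + A.map refl, dist z a ≤ Real.sqrt 2 * ε := by
  rcases hz with hz | ⟨y, hy, rfl⟩
  · obtain ⟨a, ha, h⟩ := exists_near hε hz
    exact ⟨a, Multiset.mem_add.2 (Or.inl ha), h⟩
  · obtain ⟨a, ha, h⟩ := exists_near hε hy
    refine ⟨refl a, Multiset.mem_add.2 (Or.inr (Multiset.mem_map_of_mem _ ha)), ?_⟩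
    rw [dist_refl_refl]; exact h

theorem mem_cellU2 {ε : ℝ} (hε : 0 < ε) {A : Multiset ℂ} {a : ℂ} (ha : a ∈ A + A.map refl) :
    a ∈ cellU ε (cells ε A) ∪ refl '' cellU ε (cells ε A) := by
  rcases Multiset.mem_add.1 ha with h | h
  · exact Or.inl (mem_cellU_of_mem hε h)
  · obtain ⟨b, hb, rfl⟩ := Multiset.mem_map.1 h
    exact Or.inr (refl_mem_image (mem_cellU_of_mem hε hb))

theorem cellU_dist2 {A : Multiset ℂ} {ε d : ℝ} (hε : 0 < ε)
    (hd : ∀ a ∈ A + A.map refl, ∀ b ∈ A + A.map refl, dist a b ≤ d) :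
    ∀ x ∈ cellU ε (cells ε A) ∪ refl '' cellU ε (cells ε A),
      ∀ y ∈ cellU ε (cells ε A) ∪ refl '' cellU ε (cells ε A), dist x y ≤ d + 2.8286 * ε := by
  have hs2 := sqrt2_lt
  have hprod : Real.sqrt 2 * ε ≤ 1.4143 * ε := by gcongr
  intro x hx y hy
  obtain ⟨a, ha, hxa⟩ := exists_near2 hε hx
  obtain ⟨b, hb, hyb⟩ := exists_near2 hε hy
  have h1 := dist_triangle4 x a b y
  rw [dist_comm b y] at h1
  have h2 := hd a ha b hb
  linarith

end Det

open Det in
theorem cll_thm : S_CLL := by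
  intro k n r D dm ε Λ' N ω hn hr hrdm hε hεr hN hΛ hdm h8 hSq hbad
  obtain ⟨A, P, hω, hcard, ⟨hin, hdiam, hex⟩, v, hv, hvI⟩ := hbad
  have hvI' : 0 ≤ v.re ∧ v.re < 2 * Λ' ∧ 2 * Λ' ≤ v.im ∧ v.im ≤ Real.sqrt n - 2 * Λ' := hvI
  by_cases hT : (∀ a ∈ A, dist a v < r / 200) ∧ 2 * v.re < r / 200
  · left
    exact evT hr hω hSq hcard hin hv ⟨hvI, hT.2⟩ hT.1
  right
  -- the minimal distance
  have hA0 : A ≠ 0 := by rintro rfl; simp at hv
  have hP0 : P ≠ 0 := by
    rintro rfl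
    obtain ⟨a, -, p, hp, -⟩ := hex
    simp at hp
  obtain ⟨z₀, hz₀, x₀, hx₀, hmin⟩ := exists_min_dist A P hA0 hP0
  obtain ⟨δ, hδdef⟩ : ∃ δ, dist z₀ x₀ = δ := ⟨_, rfl⟩
  rw [hδdef] at hmin
  have hδr : r ≤ δ := by rw [← hδdef]; exact (hin z₀ hz₀ x₀ hx₀).2
  have hδdm : δ ≤ dm := by
    obtain ⟨a, ha, p, hp, hap⟩ := hex
    exact (hmin a ha p hp).trans hap
  have hδ0 : 0 ≤ δ := by linarith
  have hD0 : 0 ≤ D := by
    have := hdiam v hv v hv
    simpa using this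
  have hASq : ∀ a ∈ A, a ∈ Sq n := fun a ha =>
    hSq a (by rw [hω]; exact Multiset.mem_add.2 (Or.inl ha))
  have hvSq : v ∈ Sq n := hASq v hv
  have hc₀ := idx_mem_gridL hε hvSq hvI'.2.1.le
  have hDv : ∀ a ∈ A, dist a v ≤ D := fun a ha => hdiam a ha v hv
  have hF : cells ε A ∈ (nb N (idx ε v)).powerset := by
    rw [Finset.mem_powerset]
    intro c hc
    obtain ⟨a, ha, rfl⟩ := mem_cells.1 hc
    apply idx_mem_nb hε
    have := hDv a ha
    linarith
  have hF0 : ∀ c ∈ cells ε A, 0 ≤ c.1 := by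
    intro c hc
    obtain ⟨a, ha, rfl⟩ := mem_cells.1 hc
    exact Int.floor_nonneg.2 (div_nonneg (hASq a ha).1 hε.le)
  have hs2 := sqrt2_lt
  have hprod : Real.sqrt 2 * ε ≤ 1.4143 * ε := by gcongr
  obtain ⟨hfl1, hfl2⟩ := floor_facts hε hδ0
  have hflN : ⌊δ / ε⌋₊ ≤ N := floor_le hε hδ0 (by linarith)
  have hfl20 : 20000 ≤ ⌊δ / ε⌋₊ := by
    apply floor_ge hε
    push_cast
    linarith
  have hu : ∃ u ∈ cellU ε (cells ε A) ∪ refl '' cellU ε (cells ε A), 10 * ε ≤ dist u v := by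
    by_cases h1 : ∀ a ∈ A, dist a v < r / 200
    · have h2 : ¬ (2 * v.re < r / 200) := fun h => hT ⟨h1, h⟩
      push Not at h2
      refine ⟨refl v, Or.inr (refl_mem_image (mem_cellU_of_mem hε hv)), ?_⟩
      have h3 : |(refl v - v).re| ≤ dist (refl v) v := by
        rw [Complex.dist_eq]
        exact Complex.abs_re_le_norm _
      have h4 : (refl v - v).re = -(2 * v.re) := by
        simp [refl]; ring
      rw [h4, abs_neg, abs_of_nonneg (by linarith [hvI'.1])] at h3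
      linarith
    · push Not at h1
      obtain ⟨a₁, ha₁, ha₁v⟩ := h1
      exact ⟨a₁, Or.inl (mem_cellU_of_mem hε ha₁), by linarith⟩
  by_cases hM : ∀ a ∈ A + A.map refl, ∀ b ∈ A + A.map refl, dist a b ≤ 1.98 * δ
  · left
    obtain ⟨j, hj⟩ : ∃ j, ⌊δ / ε⌋₊ = j + 2 := ⟨⌊δ / ε⌋₊ - 2, by omega⟩
    rw [hj] at hfl1 hfl2 hflN hfl20
    push_cast at hfl1 hfl2
    refine ⟨idx ε v, hc₀, cells ε A, hF, j,
      Finset.mem_range.2 (Nat.lt_succ_of_le ((Nat.le_add_right j 2).trans hflN)), hfl20, hF0,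
      ?_, ?_⟩
    · intro x hx y hy
      have h1 := cellU_dist2 hε hM x hx y hy
      have hjr : (19998 : ℝ) ≤ j := by
        have : 19998 ≤ j := by omega
        exact_mod_cast this
      have hjε : 19998 * ε ≤ j * ε := by gcongr
      clear hfl20 hflN
      linarith
    · obtain ⟨A', hA'⟩ := Multiset.exists_cons_of_mem hv
      refine ⟨v, A' + P, ?_, ⟨hvI, mem_Cell_idx hε v⟩, mem_cellU_of_mem hε hv, hu, ?_⟩
      · rw [hω, hA', Multiset.cons_add]
      · exact isoM hε hin hmin hA' (by linarith)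
  · right
    push Not at hM
    obtain ⟨p, hp, q, hq, hpq⟩ := hM
    obtain ⟨j, hj⟩ : ∃ j, ⌊δ / ε⌋₊ = j := ⟨_, rfl⟩
    rw [hj] at hfl1 hfl2 hflN hfl20
    have hj10 : 10000 ≤ j := by omega
    obtain ⟨hl1, hl2⟩ := llc_dist hε hδdef hfl1 hfl2
    refine ⟨idx ε v, hc₀, cells ε A, hF, idx ε x₀, ?_, idx ε z₀, ?_, j,
      Finset.mem_range.2 (Nat.lt_succ_of_le hflN), hj10, hF0,
      ⟨p, mem_cellU2 hε hp, q, mem_cellU2 hε hq, ?_⟩, hl1, hl2, ?_, ?_, ?_⟩
    · apply idx_mem_nb hε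
      have h1 := dist_triangle x₀ z₀ v
      have h2 := hDv z₀ hz₀
      rw [dist_comm x₀ z₀, hδdef] at h1
      linarith
    · apply idx_mem_nb hε
      have h2 := hDv z₀ hz₀
      linarith
    · linarith
    · rintro z ⟨hz, hzHP⟩
      have h1 := collar_near hε hv hDv hz
      have h2 : (0 : ℝ) ≤ j * ε := by positivity
      have hzv : dist z v ≤ 2 * Λ' := by linarith
      have hre : |z.re - v.re| ≤ dist z v := by
        rw [Complex.dist_eq]
        simpa using Complex.abs_re_le_norm (z - v)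
      have him : |z.im - v.im| ≤ dist z v := by
        rw [Complex.dist_eq]
        simpa using Complex.abs_im_le_norm (z - v)
      have hzHP' : 0 ≤ z.re := hzHP
      obtain ⟨hv1, hv2, hv3, hv4⟩ := hvI'
      have hre' := abs_le.1 hre
      have him' := abs_le.1 him
      refine ⟨hzHP', ?_, ?_, ?_⟩ <;> linarith [hre'.1, hre'.2, him'.1, him'.2]
    · rw [cnt_eq_zero, hω]
      intro z hz hc
      exact collar_empty hε hj10 hmin hv hfl1 z hz hc
    · rw [hω]
      exact manyC hε hj10 hin hmin hx₀ hz₀ hδdef hfl1 hfl2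

end KN
end
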