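import Pool.Agent.Helper8.KN.Det

/-! Part COI: deterministic classification of out-closed sets, interior. -/

open MeasureTheory Set Filter Topology
open scoped ENNReal

noncomputable section

namespace KN
namespace Det

/-- nearest point of `P` to a point -/
theorem fl_mono {ε : ℝ} (hε : 0 < ε) {s t : ℝ} (h : s ≤ t) : (⌊s / ε⌋ : ℝ) ≤ ⌊t / ε⌋ := by
  have : ⌊s / ε⌋ ≤ ⌊t / ε⌋ := Int.floor_le_floor (by gcongr)
  exact_mod_cast this

/-- the box of the extreme points contains all points -/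
theorem mem_oBox {ε : ℝ} (hε : 0 < ε) {B : Multiset ℂ} {vl vr vt vb : ℂ}
    (hl : ∀ b ∈ B, vl.re ≤ b.re) (hr : ∀ b ∈ B, b.re ≤ vr.re) (ht : ∀ b ∈ B, b.im ≤ vt.im)
    (hb : ∀ b ∈ B, vb.im ≤ b.im) {z : ℂ} (hz : z ∈ B) :
    z ∈ oBox ε (idx ε vl) (idx ε vr) (idx ε vt) (idx ε vb) := by
  refine ⟨?_, ?_, ?_, ?_⟩
  · exact (fl_le hε vl.re).trans (hl z hz)
  · exact (hr z hz).trans (lt_fl hε vr.re).le
  · exact (fl_le hε vb.im).trans (hb z hz)
  · exact (ht z hz).trans (lt_fl hε vt.im).le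

/-- points of `ω` near the (approximate) extreme point lie in `B` -/
theorem near_mem_B {ε ρ : ℝ} {j : ℕ} {B P : Multiset ℂ} {w ŵ z : ℂ}
    (hj : (j : ℝ) * ε ≤ ρ) (hε : 0 < ε) (hρ : ∀ p ∈ P, ρ ≤ dist p w)
    (hw : dist ŵ w ≤ 1.4143 * ε) (hz : z ∈ B + P)
    (hzw : z ∈ Metric.ball ŵ (((j : ℝ) - 2) * ε)) : z ∈ B := by
  rcases Multiset.mem_add.1 hz with h | h
  · exact h
  · exfalso
    rw [Metric.mem_ball] at hzw
    have h1 := hρ z h
    have h2 := dist_triangle z ŵ w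
    nlinarith

/-- many points of `B` near the extreme point nearest to `P` -/
theorem manyO {k : ℕ} {r ε ρ : ℝ} {j : ℕ} {B P : Multiset ℂ} {w ŵ p : ℂ} {X : Set ℂ} (hε : 0 < ε)
    (hout : ∀ b ∈ B, ∀ p ∈ P, k + 1 ≤ cnt (Metric.ball b (dist p b)) (B + P) ∧ r ≤ dist p b)
    (hw : w ∈ B) (hp : p ∈ P) (hpw : dist p w = ρ) (hρ : ∀ p ∈ P, ρ ≤ dist p w)
    (hŵ : dist ŵ w ≤ 1.4143 * ε) (hj' : ρ < ((j : ℝ) + 1) * ε) (hX : ∀ b ∈ B, b ∈ X) :
    k ≤ cnt (Metric.ball ŵ (((j : ℝ) + 3) * ε) ∩ X) (B + P) := by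
  have h1 := (hout w hw p hp).1
  rw [hpw] at h1
  refine (Nat.le_succ k).trans (h1.trans ?_)
  apply cnt_mono'
  intro y hy hyb
  rw [Metric.mem_ball] at hyb
  have hyB : y ∈ B := by
    rcases Multiset.mem_add.1 hy with h | h
    · exact h
    · have := hρ y h
      linarith
  refine ⟨?_, hX y hyB⟩
  rw [Metric.mem_ball]
  have h2 := dist_triangle y w ŵ
  rw [dist_comm w ŵ] at h2
  nlinarith

theorem dist_corner {ε : ℝ} (hε : 0 < ε) (w : ℂ) {ŵ : ℂ} (h : ŵ ∈ Cell ε (idx ε w)) :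
    dist ŵ w ≤ 1.4143 * ε := by
  have hs2 := sqrt2_lt
  have hprod : Real.sqrt 2 * ε ≤ 1.4143 * ε := by gcongr
  exact (dist_cell hε h (mem_Cell_idx hε w)).trans hprod

end Det

open Det in
theorem coi_thm : S_COI := by
  intro k n r D dm ε Λ' N ω hn hr hrdm hε hεr hN hΛ hSq hbad
  obtain ⟨B, P, hω, ⟨hB0, hout, hdiam, hex⟩, v, hv, hvI⟩ := hbad
  have hvI' : Metric.closedBall v (2 * Λ') ⊆ Sq n := hvI
  obtain ⟨vr, hvr, hr'⟩ := exists_max B hB0 (fun z => z.re)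
  obtain ⟨vl, hvl, hl'⟩ := exists_max B hB0 (fun z => -z.re)
  obtain ⟨vt, hvt, ht'⟩ := exists_max B hB0 (fun z => z.im)
  obtain ⟨vb, hvb, hb'⟩ := exists_max B hB0 (fun z => -z.im)
  have hl : ∀ b ∈ B, vl.re ≤ b.re := fun b hb => neg_le_neg_iff.1 (hl' b hb)
  have hb : ∀ b ∈ B, vb.im ≤ b.im := fun b hb => neg_le_neg_iff.1 (hb' b hb)
  have hP0 : P ≠ 0 := by
    rintro rfl
    obtain ⟨p, hp, -⟩ := hex v hv
    simp at hp
  -- the extreme points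
  obtain ⟨p₀, hp₀, w₀, hw₀, hmin⟩ := exists_min_dist P ({vl, vr, vt, vb} : Multiset ℂ) hP0 (by simp)
  obtain ⟨ρ, hρdef⟩ : ∃ ρ, dist p₀ w₀ = ρ := ⟨_, rfl⟩
  rw [hρdef] at hmin
  have hsub : ∀ w ∈ ({vl, vr, vt, vb} : Multiset ℂ), w ∈ B := by
    intro w hw
    simp only [Multiset.insert_eq_cons, Multiset.mem_cons, Multiset.mem_singleton] at hw
    rcases hw with rfl | rfl | rfl | rfl
    · exact hvl
    · exact hvr
    · exact hvt
    · exact hvb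
  have hw₀B := hsub w₀ hw₀
  have hρr : r ≤ ρ := by rw [← hρdef]; exact (hout w₀ hw₀B p₀ hp₀).2
  have hρdm : ρ ≤ dm := by
    obtain ⟨p, hp, hpw⟩ := hex w₀ hw₀B
    exact (hmin p hp w₀ hw₀).trans hpw
  have hρ0 : 0 ≤ ρ := by linarith
  have hDv : ∀ a ∈ B, dist a v ≤ D := fun a ha => hdiam a ha v hv
  have hvSq : v ∈ Sq n := hSq v (by rw [hω]; exact Multiset.mem_add.2 (Or.inl hv))
  have hc₀ := idx_mem_gridI hε hvSq
  have hnb : ∀ a ∈ B, idx ε a ∈ nb N (idx ε v) := by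
    intro a ha
    apply idx_mem_nb hε
    have := hDv a ha
    linarith
  have hD0 : 0 ≤ D := by
    have := hDv v hv
    simpa using this
  obtain ⟨hfl1, hfl2⟩ := floor_facts hε hρ0
  have hflN : ⌊ρ / ε⌋₊ ≤ N := floor_le hε hρ0 (by linarith)
  have hfl20 : 20000 ≤ ⌊ρ / ε⌋₊ := by
    apply floor_ge hε
    push_cast
    linarith
  obtain ⟨j, hj⟩ : ∃ j, ⌊ρ / ε⌋₊ = j := ⟨_, rfl⟩
  rw [hj] at hfl1 hfl2 hflN hfl20
  have hj10 : 10000 ≤ j := by omega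
  have hρl : ∀ p ∈ P, ρ ≤ dist p vl := fun p hp => hmin p hp vl (by simp)
  have hρr' : ∀ p ∈ P, ρ ≤ dist p vr := fun p hp => hmin p hp vr (by simp)
  have hρt : ∀ p ∈ P, ρ ≤ dist p vt := fun p hp => hmin p hp vt (by simp)
  have hρb : ∀ p ∈ P, ρ ≤ dist p vb := fun p hp => hmin p hp vb (by simp)
  have hdl := dist_corner hε vl (llc_mem hε _)
  have hdr := dist_corner hε vr (prc_mem hε _)
  have hdt := dist_corner hε vt (ptc_mem hε _)
  have hdb := dist_corner hε vb (llc_mem hε _)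
  have hbox : ∀ z ∈ B, z ∈ oBox ε (idx ε vl) (idx ε vr) (idx ε vt) (idx ε vb) :=
    fun z hz => mem_oBox hε hl hr' ht' hb hz
  have hlr := fl_mono hε (hr' vl hvl)
  have hbt := fl_mono hε (ht' vb hvb)
  refine ⟨idx ε v, hc₀, idx ε vl, hnb vl hvl, idx ε vr, hnb vr hvr, idx ε vt, hnb vt hvt,
    idx ε vb, hnb vb hvb, j, Finset.mem_range.2 (Nat.lt_succ_of_le hflN), hj10, ?_, ?_, ?_, ?_,
    ?_, ?_⟩
  · have h1 := fl_mono hε (hb vl hvl)
    have h2 := fl_mono hε (ht' vl hvl)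
    refine ⟨le_refl _, ?_, ?_, ?_⟩ <;> simp only [llc, idx] <;> nlinarith
  · have h1 := fl_mono hε (hb vr hvr)
    have h2 := fl_mono hε (ht' vr hvr)
    refine ⟨?_, le_refl _, ?_, ?_⟩ <;> simp only [prc, idx] <;> nlinarith
  · have h1 := fl_mono hε (hl vt hvt)
    have h2 := fl_mono hε (hr' vt hvt)
    refine ⟨?_, ?_, ?_, le_refl _⟩ <;> simp only [ptc, idx] <;> nlinarith
  · have h1 := fl_mono hε (hl vb hvb)
    have h2 := fl_mono hε (hr' vb hvb)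
    refine ⟨?_, ?_, le_refl _, ?_⟩ <;> simp only [llc, idx] <;> nlinarith
  · rintro z ⟨hz, -⟩
    apply hvI'
    have key : ∀ w ŵ : ℂ, w ∈ B → dist ŵ w ≤ 1.4143 * ε →
        z ∈ Metric.ball ŵ (((j : ℝ) - 2) * ε) → z ∈ Metric.closedBall v (2 * Λ') := by
      intro w ŵ hw hŵ hzw
      rw [Metric.mem_ball] at hzw
      rw [Metric.mem_closedBall]
      have h1 := dist_triangle4 z ŵ w v
      have h2 := hDv w hw
      linarith
    rcases hz with ((hz | hz) | hz) | hz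
    · exact key _ _ hvl hdl hz
    · exact key _ _ hvr hdr hz
    · exact key _ _ hvt hdt hz
    · exact key _ _ hvb hdb hz
  · have hempty : cnt (oU ε (((j : ℝ) - 2) * ε) (idx ε vl) (idx ε vr) (idx ε vt) (idx ε vb)) ω
        = 0 := by
      rw [cnt_eq_zero, hω]
      rintro z hz ⟨hzb, hznot⟩
      apply hznot
      apply hbox
      rcases hzb with ((hzb | hzb) | hzb) | hzb
      · exact near_mem_B hfl1 hε hρl hdl hz hzb
      · exact near_mem_B hfl1 hε hρr' hdr hz hzb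
      · exact near_mem_B hfl1 hε hρt hdt hz hzb
      · exact near_mem_B hfl1 hε hρb hdb hz hzb
    have hmany : ∀ ŵ : ℂ, dist ŵ w₀ ≤ 1.4143 * ε →
        k ≤ cnt (Metric.ball ŵ (((j : ℝ) + 3) * ε) ∩
          oBox ε (idx ε vl) (idx ε vr) (idx ε vt) (idx ε vb)) ω := by
      intro ŵ hŵ
      rw [hω]
      exact manyO hε hout hw₀B hp₀ hρdef (fun p hp => hmin p hp w₀ hw₀) hŵ hfl2 hbox
    simp only [Multiset.insert_eq_cons, Multiset.mem_cons, Multiset.mem_singleton] at hw₀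
    rcases hw₀ with rfl | rfl | rfl | rfl
    · exact ⟨0, Finset.mem_univ _, hempty, hmany _ hdl⟩
    · exact ⟨1, Finset.mem_univ _, hempty, hmany _ hdr⟩
    · exact ⟨2, Finset.mem_univ _, hempty, hmany _ hdt⟩
    · exact ⟨3, Finset.mem_univ _, hempty, hmany _ hdb⟩

open Det in
theorem col_thm : S_COL := by
  intro k n r D dm ε Λ' N ω hn hr hrdm hε hεr hN hΛ h8 hSq hbad
  obtain ⟨B, P, hω, ⟨hB0, hout, hdiam, hex⟩, v, hv, hvI⟩ := hbad
  have hvI' : 0 ≤ v.re ∧ v.re < 2 * Λ' ∧ 2 * Λ' ≤ v.im ∧ v.im ≤ Real.sqrt n - 2 * Λ' := hvI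
  obtain ⟨vt, hvt, ht'⟩ := exists_max B hB0 (fun z => z.im)
  obtain ⟨vb, hvb, hb'⟩ := exists_max B hB0 (fun z => -z.im)
  have hb : ∀ b ∈ B, vb.im ≤ b.im := fun b hb => neg_le_neg_iff.1 (hb' b hb)
  have hP0 : P ≠ 0 := by
    rintro rfl
    obtain ⟨p, hp, -⟩ := hex v hv
    simp at hp
  -- the extreme points
  obtain ⟨p₀, hp₀, w₀, hw₀, hmin⟩ := exists_min_dist P ({vt, vb} : Multiset ℂ) hP0 (by simp)
  obtain ⟨ρ, hρdef⟩ : ∃ ρ, dist p₀ w₀ = ρ := ⟨_, rfl⟩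
  rw [hρdef] at hmin
  have hsub : ∀ w ∈ ({vt, vb} : Multiset ℂ), w ∈ B := by
    intro w hw
    simp only [Multiset.insert_eq_cons, Multiset.mem_cons, Multiset.mem_singleton] at hw
    rcases hw with rfl | rfl
    · exact hvt
    · exact hvb
  have hw₀B := hsub w₀ hw₀
  have hρr : r ≤ ρ := by rw [← hρdef]; exact (hout w₀ hw₀B p₀ hp₀).2
  have hρdm : ρ ≤ dm := by
    obtain ⟨p, hp, hpw⟩ := hex w₀ hw₀B
    exact (hmin p hp w₀ hw₀).trans hpw
  have hρ0 : 0 ≤ ρ := by linarith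
  have hDv : ∀ a ∈ B, dist a v ≤ D := fun a ha => hdiam a ha v hv
  have hBSq : ∀ a ∈ B, a ∈ Sq n := fun a ha =>
    hSq a (by rw [hω]; exact Multiset.mem_add.2 (Or.inl ha))
  have hvSq : v ∈ Sq n := hBSq v hv
  have hc₀ := idx_mem_gridL hε hvSq hvI'.2.1.le
  have hnb : ∀ a ∈ B, idx ε a ∈ nb N (idx ε v) := by
    intro a ha
    apply idx_mem_nb hε
    have := hDv a ha
    linarith
  have hD0 : 0 ≤ D := by
    have := hDv v hv
    simpa using this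
  have hpos : ∀ a ∈ B, 0 ≤ (idx ε a).1 := fun a ha =>
    Int.floor_nonneg.2 (div_nonneg (hBSq a ha).1 hε.le)
  obtain ⟨hfl1, hfl2⟩ := floor_facts hε hρ0
  have hflN : ⌊ρ / ε⌋₊ ≤ N := floor_le hε hρ0 (by linarith)
  have hfl20 : 20000 ≤ ⌊ρ / ε⌋₊ := by
    apply floor_ge hε
    push_cast
    linarith
  obtain ⟨j, hj⟩ : ∃ j, ⌊ρ / ε⌋₊ = j := ⟨_, rfl⟩
  rw [hj] at hfl1 hfl2 hflN hfl20
  have hj10 : 10000 ≤ j := by omega
  have hρt : ∀ p ∈ P, ρ ≤ dist p vt := fun p hp => hmin p hp vt (by simp)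
  have hρb : ∀ p ∈ P, ρ ≤ dist p vb := fun p hp => hmin p hp vb (by simp)
  have hdt := dist_corner hε vt (ptc_mem hε _)
  have hdb := dist_corner hε vb (llc_mem hε _)
  have hbox : ∀ z ∈ B, z ∈ {z : ℂ | 0 ≤ z.re ∧ ((idx ε vb).2 : ℝ) * ε ≤ z.im ∧
      z.im ≤ (((idx ε vt).2 : ℝ) + 1) * ε} :=
    fun z hz => ⟨(hBSq z hz).1, (fl_le hε vb.im).trans (hb z hz),
      (ht' z hz).trans (lt_fl hε vt.im).le⟩
  have hbt := fl_mono hε (ht' vb hvb)
  refine ⟨idx ε v, hc₀, idx ε vt, hnb vt hvt,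
    idx ε vb, hnb vb hvb, j, Finset.mem_range.2 (Nat.lt_succ_of_le hflN), hj10, hpos vt hvt,
    hpos vb hvb, ?_, ?_, ?_⟩
  · simp only [idx]; nlinarith
  · intro z hz
    have key : ∀ w ŵ : ℂ, w ∈ B → dist ŵ w ≤ 1.4143 * ε → 0 ≤ z.re →
        z ∈ Metric.ball ŵ (((j : ℝ) - 2) * ε) → z ∈ Sq n := by
      intro w ŵ hw hŵ hz0 hzw
      rw [Metric.mem_ball] at hzw
      have h1 := dist_triangle4 z ŵ w v
      have h2 := hDv w hw
      have hzv : dist z v ≤ 2 * Λ' := by linarith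
      have hre : |z.re - v.re| ≤ dist z v := by
        rw [Complex.dist_eq]
        simpa using Complex.abs_re_le_norm (z - v)
      have him : |z.im - v.im| ≤ dist z v := by
        rw [Complex.dist_eq]
        simpa using Complex.abs_im_le_norm (z - v)
      obtain ⟨hv1, hv2, hv3, hv4⟩ := hvI'
      have hre' := abs_le.1 hre
      have him' := abs_le.1 him
      refine ⟨hz0, ?_, ?_, ?_⟩ <;> linarith [hre'.1, hre'.2, him'.1, him'.2]
    rcases hz with ⟨⟨hz0, -⟩, hz⟩ | ⟨⟨hz0, -⟩, hz⟩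
    · exact key _ _ hvt hdt hz0 hz
    · exact key _ _ hvb hdb hz0 hz
  · have hempty : cnt (oUl ε (((j : ℝ) - 2) * ε) (idx ε vt) (idx ε vb)) ω = 0 := by
      rw [cnt_eq_zero, hω]
      intro z hz hzU
      rcases hzU with ⟨⟨-, hzt⟩, hzb⟩ | ⟨⟨-, hzt⟩, hzb⟩
      · have hzB := near_mem_B hfl1 hε hρt hdt hz hzb
        exact absurd (hbox z hzB).2.2 (not_le.2 hzt)
      · have hzB := near_mem_B hfl1 hε hρb hdb hz hzb
        exact absurd (hbox z hzB).2.1 (not_le.2 hzt)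
    have hmany : ∀ ŵ : ℂ, dist ŵ w₀ ≤ 1.4143 * ε →
        k ≤ cnt ({z : ℂ | 0 ≤ z.re ∧ ((idx ε vb).2 : ℝ) * ε ≤ z.im ∧
          z.im ≤ (((idx ε vt).2 : ℝ) + 1) * ε} ∩ Metric.ball ŵ (((j : ℝ) + 3) * ε)) ω := by
      intro ŵ hŵ
      rw [hω, inter_comm]
      exact manyO hε hout hw₀B hp₀ hρdef (fun p hp => hmin p hp w₀ hw₀) hŵ hfl2 hbox
    simp only [Multiset.insert_eq_cons, Multiset.mem_cons, Multiset.mem_singleton] at hw₀
    rcases hw₀ with rfl | rfl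
    · exact ⟨0, Finset.mem_univ _, hempty, hmany _ hdt⟩
    · exact ⟨1, Finset.mem_univ _, hempty, hmany _ hdb⟩

end KN
end
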