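import Pool.Agent.Helper89.KN.Spec
import Pool.Agent.Helper89.KN.Base

/-! Common lemmas for the deterministic classification parts CLI, CLL, COI, COL. -/

open MeasureTheory Set Filter Topology
open scoped ENNReal

noncomputable section

namespace KN
namespace Det

/-- index of the cell of a point -/
def idx (ε : ℝ) (z : ℂ) : ℤ × ℤ := (⌊z.re / ε⌋, ⌊z.im / ε⌋)

theorem fl_le {ε : ℝ} (hε : 0 < ε) (t : ℝ) : (⌊t / ε⌋ : ℝ) * ε ≤ t := by
  have h := Int.floor_le (t / ε)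
  calc (⌊t / ε⌋ : ℝ) * ε ≤ t / ε * ε := by gcongr
    _ = t := by field_simp

theorem lt_fl {ε : ℝ} (hε : 0 < ε) (t : ℝ) : t < ((⌊t / ε⌋ : ℝ) + 1) * ε := by
  have h := Int.lt_floor_add_one (t / ε)
  calc t = t / ε * ε := by field_simp
    _ < ((⌊t / ε⌋ : ℝ) + 1) * ε := by gcongr

theorem mem_Cell_idx {ε : ℝ} (hε : 0 < ε) (z : ℂ) : z ∈ Cell ε (idx ε z) := by
  refine ⟨fl_le hε _, (lt_fl hε _).le, fl_le hε _, (lt_fl hε _).le⟩

theorem dist_le_of_abs {s : ℝ} (hs : 0 ≤ s) {x y : ℂ} (h1 : |x.re - y.re| ≤ s)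
    (h2 : |x.im - y.im| ≤ s) : dist x y ≤ Real.sqrt 2 * s := by
  rw [Complex.dist_eq_re_im]
  have h1' : (x.re - y.re) ^ 2 ≤ s ^ 2 := by
    rw [← sq_abs (x.re - y.re)]; gcongr
  have h2' : (x.im - y.im) ^ 2 ≤ s ^ 2 := by
    rw [← sq_abs (x.im - y.im)]; gcongr
  calc Real.sqrt ((x.re - y.re) ^ 2 + (x.im - y.im) ^ 2) ≤ Real.sqrt (2 * s ^ 2) := by
        apply Real.sqrt_le_sqrt; linarith
    _ = Real.sqrt 2 * s := by
        rw [Real.sqrt_mul (by norm_num), Real.sqrt_sq hs]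

theorem dist_cell {ε : ℝ} (hε : 0 < ε) {c : ℤ × ℤ} {x y : ℂ} (hx : x ∈ Cell ε c)
    (hy : y ∈ Cell ε c) : dist x y ≤ Real.sqrt 2 * ε := by
  obtain ⟨h1, h2, h3, h4⟩ := hx
  obtain ⟨k1, k2, k3, k4⟩ := hy
  apply dist_le_of_abs hε.le
  · rw [abs_le]; constructor <;> nlinarith
  · rw [abs_le]; constructor <;> nlinarith

theorem llc_mem {ε : ℝ} (hε : 0 < ε) (c : ℤ × ℤ) : llc ε c ∈ Cell ε c := by
  refine ⟨le_refl _, ?_, le_refl _, ?_⟩ <;> simp only [llc] <;> nlinarith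

theorem prc_mem {ε : ℝ} (hε : 0 < ε) (c : ℤ × ℤ) : prc ε c ∈ Cell ε c := by
  refine ⟨?_, le_refl _, le_refl _, ?_⟩ <;> simp only [prc] <;> nlinarith

theorem ptc_mem {ε : ℝ} (hε : 0 < ε) (c : ℤ × ℤ) : ptc ε c ∈ Cell ε c := by
  refine ⟨le_refl _, ?_, ?_, le_refl _⟩ <;> simp only [ptc] <;> nlinarith

theorem idx_mem_nb {ε : ℝ} (hε : 0 < ε) {N : ℕ} {z v : ℂ} (h : dist z v + 10 * ε ≤ N * ε) :
    idx ε z ∈ nb N (idx ε v) := by
  have hre : |z.re - v.re| ≤ dist z v := by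
    rw [Complex.dist_eq]
    simpa using Complex.abs_re_le_norm (z - v)
  have him : |z.im - v.im| ≤ dist z v := by
    rw [Complex.dist_eq]
    simpa using Complex.abs_im_le_norm (z - v)
  have key : ∀ s t : ℝ, |s - t| ≤ dist z v → ⌊t / ε⌋ - (N : ℤ) ≤ ⌊s / ε⌋ ∧
      ⌊s / ε⌋ ≤ ⌊t / ε⌋ + (N : ℤ) := by
    intro s t hst
    obtain ⟨h1, h2⟩ := abs_le.1 hst
    have hs1 := fl_le hε s
    have hs2 := lt_fl hε s
    have ht1 := fl_le hε t
    have ht2 := lt_fl hε t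
    constructor
    · by_contra hcon
      push Not at hcon
      have hcon' : (⌊s / ε⌋ : ℝ) + 1 ≤ ⌊t / ε⌋ - N := by exact_mod_cast Int.add_one_le_iff.2 hcon
      have : ((⌊s / ε⌋ : ℝ) + 1) * ε ≤ (⌊t / ε⌋ - N) * ε := by gcongr
      nlinarith
    · by_contra hcon
      push Not at hcon
      have hcon' : (⌊t / ε⌋ : ℝ) + N + 1 ≤ ⌊s / ε⌋ := by exact_mod_cast Int.add_one_le_iff.2 hcon
      have : ((⌊t / ε⌋ : ℝ) + N + 1) * ε ≤ (⌊s / ε⌋ : ℝ) * ε := by gcongr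
      nlinarith
  simp only [nb, Finset.mem_product, Finset.mem_Icc, idx]
  exact ⟨key _ _ hre, key _ _ him⟩

theorem idx_mem_gridI {n ε : ℝ} (hε : 0 < ε) {z : ℂ} (h : z ∈ Sq n) : idx ε z ∈ gridI n ε := by
  obtain ⟨h1, h2, h3, h4⟩ := h
  simp only [gridI, Finset.mem_product, Finset.mem_Icc, idx]
  refine ⟨⟨Int.floor_nonneg.2 (by positivity), Int.floor_le_floor (by gcongr)⟩,
    ⟨Int.floor_nonneg.2 (by positivity), Int.floor_le_floor (by gcongr)⟩⟩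

theorem idx_mem_gridL {n ε Λ₀ : ℝ} (hε : 0 < ε) {z : ℂ} (h : z ∈ Sq n) (hz : z.re ≤ Λ₀) :
    idx ε z ∈ gridL n ε Λ₀ := by
  obtain ⟨h1, h2, h3, h4⟩ := h
  simp only [gridL, Finset.mem_product, Finset.mem_Icc, idx]
  refine ⟨⟨Int.floor_nonneg.2 (by positivity), Int.floor_le_floor (by gcongr)⟩,
    ⟨Int.floor_nonneg.2 (by positivity), Int.floor_le_floor (by gcongr)⟩⟩

/-- the set of cells met by a configuration -/
def cells (ε : ℝ) (A : Multiset ℂ) : Finset (ℤ × ℤ) := (A.map (idx ε)).toFinset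

theorem mem_cells {ε : ℝ} {A : Multiset ℂ} {c : ℤ × ℤ} :
    c ∈ cells ε A ↔ ∃ a ∈ A, idx ε a = c := by
  simp [cells]

theorem mem_cellU_of_mem {ε : ℝ} (hε : 0 < ε) {A : Multiset ℂ} {a : ℂ} (ha : a ∈ A) :
    a ∈ cellU ε (cells ε A) := by
  simp only [cellU, mem_iUnion]
  exact ⟨idx ε a, mem_cells.2 ⟨a, ha, rfl⟩, mem_Cell_idx hε a⟩

theorem exists_near {ε : ℝ} (hε : 0 < ε) {A : Multiset ℂ} {z : ℂ} (hz : z ∈ cellU ε (cells ε A)) :
    ∃ a ∈ A, dist z a ≤ Real.sqrt 2 * ε := by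
  simp only [cellU, mem_iUnion] at hz
  obtain ⟨c, hc, hzc⟩ := hz
  obtain ⟨a, ha, rfl⟩ := mem_cells.1 hc
  exact ⟨a, ha, dist_cell hε hzc (mem_Cell_idx hε a)⟩

theorem sqrt2_lt : Real.sqrt 2 < 1.4143 := by
  rw [show (1.4143 : ℝ) = Real.sqrt (1.4143 ^ 2) by rw [Real.sqrt_sq (by norm_num)]]
  apply Real.sqrt_lt_sqrt (by norm_num) (by norm_num)

theorem sqrt2_pos : 0 < Real.sqrt 2 := by positivity

/-- minimum of the distances between two nonempty multisets -/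
theorem exists_min_dist (A P : Multiset ℂ) (hA : A ≠ 0) (hP : P ≠ 0) :
    ∃ a ∈ A, ∃ p ∈ P, ∀ a' ∈ A, ∀ p' ∈ P, dist a p ≤ dist a' p' := by
  classical
  have hne : (A.toFinset ×ˢ P.toFinset).Nonempty := by
    apply Finset.Nonempty.product
    · rw [Finset.nonempty_iff_ne_empty]
      simpa using hA
    · rw [Finset.nonempty_iff_ne_empty]
      simpa using hP
  obtain ⟨⟨a, p⟩, hap, hmin⟩ := Finset.exists_min_image _ (fun q : ℂ × ℂ => dist q.1 q.2) hne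
  simp only [Finset.mem_product, Multiset.mem_toFinset] at hap hmin
  exact ⟨a, hap.1, p, hap.2, fun a' ha' p' hp' => hmin (a', p') ⟨ha', hp'⟩⟩

/-- nearest point of a nonempty multiset -/
theorem exists_nearest (A : Multiset ℂ) (hA : A ≠ 0) (p : ℂ) :
    ∃ a ∈ A, ∀ a' ∈ A, dist a p ≤ dist a' p := by
  obtain ⟨a, ha, q, hq, h⟩ := exists_min_dist A {p} hA (by simp)
  rw [Multiset.mem_singleton] at hq
  subst hq
  exact ⟨a, ha, fun a' ha' => h a' ha' q (by simp)⟩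

/-- farthest point of a nonempty multiset -/
theorem exists_farthest (A : Multiset ℂ) (hA : A ≠ 0) (p : ℂ) :
    ∃ a ∈ A, ∀ a' ∈ A, dist a' p ≤ dist a p := by
  classical
  have hne : A.toFinset.Nonempty := by
    rw [Finset.nonempty_iff_ne_empty]
    simpa using hA
  obtain ⟨a, ha, hmax⟩ := Finset.exists_max_image _ (fun q : ℂ => dist q p) hne
  simp only [Multiset.mem_toFinset] at ha hmax
  exact ⟨a, ha, hmax⟩

/-- maximiser of a function on a nonempty multiset -/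
theorem exists_max (A : Multiset ℂ) (hA : A ≠ 0) (f : ℂ → ℝ) :
    ∃ a ∈ A, ∀ a' ∈ A, f a' ≤ f a := by
  classical
  have hne : A.toFinset.Nonempty := by
    rw [Finset.nonempty_iff_ne_empty]
    simpa using hA
  obtain ⟨a, ha, hmax⟩ := Finset.exists_max_image _ f hne
  simp only [Multiset.mem_toFinset] at ha hmax
  exact ⟨a, ha, hmax⟩

/-- points of `A + P` in a set avoiding `A` are points of `P` -/
theorem cnt_add_le {A P : Multiset ℂ} {W : Set ℂ} (h : ∀ a ∈ A, a ∉ W) :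
    cnt W (A + P) = cnt W P := by
  rw [cnt_add, cnt_eq_zero.2 h, zero_add]

theorem cnt_add_le' {A P : Multiset ℂ} {W : Set ℂ} (h : ∀ p ∈ P, p ∉ W) :
    cnt W (A + P) = cnt W A := by
  rw [cnt_add, cnt_eq_zero.2 h, add_zero]

/-- `⌊δ/ε⌋` as a natural number -/
theorem floor_facts {δ ε : ℝ} (hε : 0 < ε) (hδ : 0 ≤ δ) :
    (⌊δ / ε⌋₊ : ℝ) * ε ≤ δ ∧ δ < ((⌊δ / ε⌋₊ : ℝ) + 1) * ε := by
  have h1 := Nat.floor_le (div_nonneg hδ hε.le)
  have h2 := Nat.lt_floor_add_one (δ / ε)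
  constructor
  · calc (⌊δ / ε⌋₊ : ℝ) * ε ≤ δ / ε * ε := by gcongr
      _ = δ := by field_simp
  · calc δ = δ / ε * ε := by field_simp
      _ < ((⌊δ / ε⌋₊ : ℝ) + 1) * ε := by gcongr

theorem floor_ge {δ ε : ℝ} (hε : 0 < ε) {m : ℕ} (h : (m : ℝ) * ε ≤ δ) : m ≤ ⌊δ / ε⌋₊ := by
  apply Nat.le_floor
  rw [le_div_iff₀ hε]
  exact h

theorem floor_le {δ ε : ℝ} (hε : 0 < ε) {N : ℕ} (hδ : 0 ≤ δ) (h : δ ≤ N * ε) : ⌊δ / ε⌋₊ ≤ N := by
  have h1 := (floor_facts hε hδ).1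
  have : (⌊δ / ε⌋₊ : ℝ) ≤ N := by
    by_contra hcon
    push Not at hcon
    have : (N : ℝ) * ε < (⌊δ / ε⌋₊ : ℝ) * ε := by gcongr
    linarith
  exact_mod_cast this

end Det
end KN
end
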